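import Pool.Agent.Zk91.SQ.Defs8

/-!
Module V1: a smooth kernel which reproduces `J0 ‖x‖`.
-/

set_option autoImplicit false

open MeasureTheory Filter Topology Real
open scoped ContDiff

namespace Pool.Agent.Zk99.SQ

open Pool.Agent.Zk91.SQ
open Pool.Agent.N661.BR (J0)
open Pool.Agent.W745.RW (lap dx dy)

noncomputable section

/-- the scalar product with the unit vector of direction `α` -/
def spL (α : ℝ) : ℂ →L[ℝ] ℝ := Real.cos α • Complex.reCLM + Real.sin α • Complex.imCLM

lemma spL_apply (α : ℝ) (z : ℂ) : spL α z = Real.cos α * z.re + Real.sin α * z.im := by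
  simp [spL]

lemma J0_eq (z : ℂ) :
    J0 ‖z‖ = 1 / (2 * π) * ∫ α in (0:ℝ)..(2 * π), Real.cos (spL α z) := by
  have h : ∀ α, spL α z = ‖z‖ * Real.cos (α - Complex.arg z) := by
    intro α
    rw [spL_apply, Real.cos_sub]
    have h1 := Complex.norm_mul_cos_arg z
    have h2 := Complex.norm_mul_sin_arg z
    rw [← h1, ← h2]
    rw [h1, h2]
    have e1 : ‖z‖ * (Real.cos α * Real.cos z.arg + Real.sin α * Real.sin z.arg) =
        Real.cos α * (‖z‖ * Real.cos z.arg) + Real.sin α * (‖z‖ * Real.sin z.arg) := by ring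
    rw [e1, h1, h2]
  simp_rw [h]
  rw [intervalIntegral.integral_comp_sub_right
    (fun α => Real.cos (‖z‖ * Real.cos α)) (Complex.arg z)]
  unfold J0
  have hper : Function.Periodic (fun α => Real.cos (‖z‖ * Real.cos α)) (2 * π) := by
    intro α
    simp only [Real.cos_add_two_pi]
  have h3 := hper.intervalIntegral_add_eq (0 - Complex.arg z) 0
  rw [zero_add] at h3
  rw [← h3]
  congr 2
  ring

/-- exchange of the two integrations -/
lemma swap {k : ℂ → ℝ} (hk : Continuous k) (hc : HasCompactSupport k) (x : ℂ) :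
    ∫ y : ℂ, k y * J0 ‖x - y‖ =
      1 / (2 * π) * ∫ α in (0:ℝ)..(2 * π), ∫ y : ℂ, k y * Real.cos (spL α (x - y)) := by
  have h0 : (0:ℝ) ≤ 2 * π := by positivity
  have hint : Integrable (fun p : ℂ × ℝ => k p.1 * Real.cos (spL p.2 (x - p.1)))
      (volume.prod (volume.restrict (Set.Ioc 0 (2 * π)))) := by
    have h1 : Integrable (fun p : ℂ × ℝ => k p.1 * (1 : ℝ))
        (volume.prod (volume.restrict (Set.Ioc 0 (2 * π)))) :=
      (hk.integrable_of_hasCompactSupport hc).mul_prod (integrable_const 1)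
    refine h1.mono ?_ (ae_of_all _ fun p => ?_)
    · have : Continuous (fun p : ℂ × ℝ => k p.1 * Real.cos (spL p.2 (x - p.1))) := by
        simp only [spL_apply]
        fun_prop
      exact this.aestronglyMeasurable
    · rw [norm_mul, norm_mul, norm_one]
      exact mul_le_mul_of_nonneg_left (Real.abs_cos_le_one _) (norm_nonneg _)
  simp_rw [J0_eq]
  have e1 : ∀ y : ℂ, k y * (1 / (2 * π) * ∫ α in (0:ℝ)..(2 * π), Real.cos (spL α (x - y))) =
      1 / (2 * π) * ∫ α in Set.Ioc 0 (2 * π), k y * Real.cos (spL α (x - y)) := by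
    intro y
    rw [intervalIntegral.integral_of_le h0, integral_const_mul]
    ring
  simp_rw [e1]
  rw [integral_const_mul, integral_integral_swap hint, intervalIntegral.integral_of_le h0]

/-- integration by parts -/
lemma ibp {u g : ℂ → ℝ} (hu : ContDiff ℝ 1 u) (hc : HasCompactSupport u) (hg : ContDiff ℝ 1 g)
    (v : ℂ) : ∫ y, fderiv ℝ u y v * g y = -∫ y, u y * fderiv ℝ g y v := by
  have h1 : Continuous fun y => fderiv ℝ u y v :=
    (hu.continuous_fderiv one_ne_zero).clm_apply continuous_const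
  have h2 : Continuous fun y => fderiv ℝ g y v :=
    (hg.continuous_fderiv one_ne_zero).clm_apply continuous_const
  have h3 := integral_mul_fderiv_eq_neg_fderiv_mul_of_integrable (μ := (volume : Measure ℂ))
    (f := u) (g := g) (v := v)
    ((h1.mul hg.continuous).integrable_of_hasCompactSupport (hc.fderiv_apply (𝕜 := ℝ) v).mul_right)
    ((hu.continuous.mul h2).integrable_of_hasCompactSupport hc.mul_right)
    ((hu.continuous.mul hg.continuous).integrable_of_hasCompactSupport hc.mul_right)
    (fun y _ => (hu.differentiable one_ne_zero) y) (fun y _ => (hg.differentiable one_ne_zero) y)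
  rw [h3, neg_neg]

lemma hasF (α : ℝ) (x y : ℂ) :
    HasFDerivAt (fun y : ℂ => spL α (x - y)) (-(spL α)) y := by
  have e : (fun y : ℂ => spL α (x - y)) = fun y => spL α x - spL α y := by
    funext y
    rw [map_sub]
  rw [e]
  exact (spL α).hasFDerivAt.const_sub (spL α x)

lemma fderiv_cos (α : ℝ) (x v y : ℂ) :
    fderiv ℝ (fun y : ℂ => Real.cos (spL α (x - y))) y v =
      spL α v * Real.sin (spL α (x - y)) := by
  have h1 := hasF α x y
  have h2 := h1.cos
  rw [h2.fderiv]
  simp
  ring

lemma fderiv_sin (α : ℝ) (x v y : ℂ) :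
    fderiv ℝ (fun y : ℂ => spL α v * Real.sin (spL α (x - y))) y v =
      -(spL α v) ^ 2 * Real.cos (spL α (x - y)) := by
  have h1 := hasF α x y
  have h2 := (h1.sin).const_mul (spL α v)
  rw [h2.fderiv]
  simp
  ring

lemma smooth_g (α : ℝ) (x : ℂ) {n : ℕ∞} :
    ContDiff ℝ n (fun y : ℂ => Real.cos (spL α (x - y))) :=
  Real.contDiff_cos.comp ((spL α).contDiff.comp (contDiff_const.sub contDiff_id))

lemma smooth_h (α : ℝ) (x v : ℂ) {n : ℕ∞} :
    ContDiff ℝ n (fun y : ℂ => spL α v * Real.sin (spL α (x - y))) :=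
  contDiff_const.mul (Real.contDiff_sin.comp ((spL α).contDiff.comp (contDiff_const.sub contDiff_id)))

/-- the second derivative in the direction `v` -/
lemma second {K : ℂ → ℝ} (hK : ContDiff ℝ ∞ K) (hc : HasCompactSupport K) (α : ℝ) (x v : ℂ) :
    ∫ y, fderiv ℝ (fun z => fderiv ℝ K z v) y v * Real.cos (spL α (x - y)) =
      -(spL α v) ^ 2 * ∫ y, K y * Real.cos (spL α (x - y)) := by
  have hK1 : ContDiff ℝ 1 (fun z => fderiv ℝ K z v) :=
    ((hK.fderiv_right (m := 1) (by norm_cast)).clm_apply contDiff_const)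
  rw [ibp hK1 (hc.fderiv_apply (𝕜 := ℝ) v) (smooth_g α x (n := 1)) v]
  simp_rw [fderiv_cos]
  rw [ibp (hK.of_le (by norm_cast)) hc (smooth_h α x v (n := 1)) v, neg_neg]
  simp_rw [fderiv_sin]
  rw [← integral_const_mul]
  congr 1
  funext y
  ring

lemma lap_int {K : ℂ → ℝ} (hK : ContDiff ℝ ∞ K) (hc : HasCompactSupport K) (α : ℝ) (x : ℂ) :
    ∫ y, lap K y * Real.cos (spL α (x - y)) = -∫ y, K y * Real.cos (spL α (x - y)) := by
  have hd : ∀ v : ℂ, Continuous (fun y => fderiv ℝ (fun z => fderiv ℝ K z v) y v) ∧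
      HasCompactSupport (fun y => fderiv ℝ (fun z => fderiv ℝ K z v) y v) := by
    intro v
    have hK1 : ContDiff ℝ 1 (fun z => fderiv ℝ K z v) :=
      ((hK.fderiv_right (m := 1) (by norm_cast)).clm_apply contDiff_const)
    exact ⟨(hK1.continuous_fderiv one_ne_zero).clm_apply continuous_const,
      (hc.fderiv_apply (𝕜 := ℝ) v).fderiv_apply (𝕜 := ℝ) v⟩
  have hi : ∀ v : ℂ, Integrable (fun y => fderiv ℝ (fun z => fderiv ℝ K z v) y v *
      Real.cos (spL α (x - y))) := fun v =>
    ((hd v).1.mul (smooth_g α x (n := 1)).continuous).integrable_of_hasCompactSupport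
      (hd v).2.mul_right
  have e : ∀ y, lap K y * Real.cos (spL α (x - y)) =
      fderiv ℝ (fun z => fderiv ℝ K z 1) y 1 * Real.cos (spL α (x - y)) +
        fderiv ℝ (fun z => fderiv ℝ K z Complex.I) y Complex.I * Real.cos (spL α (x - y)) := by
    intro y
    unfold lap dx dy
    ring
  simp_rw [e]
  rw [integral_add (hi 1) (hi Complex.I), second hK hc, second hK hc, spL_apply, spL_apply]
  simp only [Complex.one_re, Complex.one_im, Complex.I_re, Complex.I_im, mul_one, mul_zero,
    add_zero, zero_add]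
  have := Real.sin_sq_add_cos_sq α
  linear_combination (-∫ y, K y * Real.cos (spL α (x - y))) * this

/-- the bump -/
def psi (z : ℂ) : ℝ := Real.smoothTransition (1 - (z.re ^ 2 + z.im ^ 2))

lemma psi_norm (z : ℂ) : psi z = Real.smoothTransition (1 - ‖z‖ ^ 2) := by
  unfold psi
  rw [Complex.sq_norm, Complex.normSq_apply]
  congr 1
  ring

lemma psi_smooth : ContDiff ℝ ∞ psi :=
  Real.smoothTransition.contDiff.comp
    (contDiff_const.sub ((Complex.reCLM.contDiff.pow 2).add (Complex.imCLM.contDiff.pow 2)))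

lemma psi_zero {z : ℂ} (h : 1 ≤ ‖z‖) : psi z = 0 := by
  rw [psi_norm]
  apply Real.smoothTransition.zero_of_nonpos
  nlinarith [norm_nonneg z]

lemma psi_compact : HasCompactSupport psi := by
  refine HasCompactSupport.intro (isCompact_closedBall (0 : ℂ) 1) fun z hz => ?_
  apply psi_zero
  rw [Metric.mem_closedBall, dist_zero_right, not_le] at hz
  exact hz.le

lemma radial {K : ℂ → ℝ} (hr : ∀ y z : ℂ, ‖y‖ = ‖z‖ → K y = K z) (α : ℝ) :
    ∫ y, K y * Real.cos (spL α y) = ∫ y, K y * Real.cos y.re := by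
  let a : Circle := Circle.exp α
  have h1 := (rotation a).measurePreserving.integral_comp
    (rotation a).toMeasurableEquiv.measurableEmbedding (fun y => K y * Real.cos (spL α y))
  rw [← h1]
  congr 1
  funext y
  have h2 : ‖rotation a y‖ = ‖y‖ := (rotation a).norm_map y
  rw [hr _ _ h2]
  congr 2
  rw [spL_apply, rotation_apply]
  have h3 : (a : ℂ) = Complex.exp (α * Complex.I) := Circle.coe_exp α
  rw [h3, Complex.exp_mul_I, ← Complex.ofReal_cos, ← Complex.ofReal_sin]
  simp only [Complex.mul_re, Complex.mul_im, Complex.add_re, Complex.add_im, Complex.ofReal_re,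
    Complex.ofReal_im, Complex.I_re, Complex.I_im, mul_zero, mul_one, sub_zero, add_zero, zero_add]
  have := Real.sin_sq_add_cos_sq α
  linear_combination y.re * this

/-- the reproducing property for plane waves -/
lemma plane {K : ℂ → ℝ} (hK : Continuous K) (hc : HasCompactSupport K)
    (hr : ∀ y z : ℂ, ‖y‖ = ‖z‖ → K y = K z) (h1 : ∫ y, K y * Real.cos y.re = 1) (α : ℝ) (x : ℂ) :
    ∫ y, K y * Real.cos (spL α (x - y)) = Real.cos (spL α x) := by
  have hi1 : Integrable (fun y => K y * Real.cos (spL α y)) :=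
    (hK.mul (Real.continuous_cos.comp (spL α).continuous)).integrable_of_hasCompactSupport
      hc.mul_right
  have hi2 : Integrable (fun y => K y * Real.sin (spL α y)) :=
    (hK.mul (Real.continuous_sin.comp (spL α).continuous)).integrable_of_hasCompactSupport
      hc.mul_right
  have e : ∀ y, K y * Real.cos (spL α (x - y)) = Real.cos (spL α x) * (K y * Real.cos (spL α y)) +
      Real.sin (spL α x) * (K y * Real.sin (spL α y)) := by
    intro y
    rw [map_sub, Real.cos_sub]
    ring
  have hodd : ∫ y, K y * Real.sin (spL α y) = 0 := by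
    have h2 := integral_neg_eq_self (fun y => K y * Real.sin (spL α y)) (volume : Measure ℂ)
    have h3 : ∀ y : ℂ, K (-y) * Real.sin (spL α (-y)) = -(K y * Real.sin (spL α y)) := by
      intro y
      rw [map_neg, Real.sin_neg, hr (-y) y (norm_neg y)]
      ring
    simp_rw [h3] at h2
    rw [integral_neg] at h2
    linarith
  simp_rw [e]
  rw [integral_add (hi1.const_mul _) (hi2.const_mul _), integral_const_mul, integral_const_mul,
    hodd, radial hr, h1]
  ring

theorem v1 : S_V1 := by
  have hpos : 0 < ∫ y : ℂ, psi y * Real.cos y.re := by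
    refine Continuous.integral_pos_of_hasCompactSupport_nonneg_nonzero (x := 0) ?_ ?_ ?_ ?_
    · exact psi_smooth.continuous.mul (Real.continuous_cos.comp Complex.continuous_re)
    · exact psi_compact.mul_right
    · intro y
      show 0 ≤ psi y * Real.cos y.re
      by_cases h : 1 ≤ ‖y‖
      · rw [psi_zero h, zero_mul]
      · refine mul_nonneg (Real.smoothTransition.nonneg _) ?_
        have h2 := Complex.abs_re_le_norm y
        have h3 := Real.pi_gt_three
        rw [abs_le] at h2
        push Not at h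
        exact Real.cos_nonneg_of_neg_pi_div_two_le_of_le (by linarith [h2.1]) (by linarith [h2.2])
    · simp [psi]
  obtain ⟨c, hc⟩ : ∃ c : ℝ, c = (∫ y : ℂ, psi y * Real.cos y.re)⁻¹ := ⟨_, rfl⟩
  let K : ℂ → ℝ := fun y => c * psi y
  have hK : ContDiff ℝ ∞ K := contDiff_const.mul psi_smooth
  have hKc : HasCompactSupport K := psi_compact.mul_left
  have hr : ∀ y z : ℂ, ‖y‖ = ‖z‖ → K y = K z := by
    intro y z h
    show c * psi y = c * psi z
    rw [psi_norm, psi_norm, h]
  have h1 : ∫ y, K y * Real.cos y.re = 1 := by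
    have e : ∀ y, K y * Real.cos y.re = c * (psi y * Real.cos y.re) := fun y => by
      show c * psi y * _ = _
      ring
    simp_rw [e]
    rw [integral_const_mul, hc]
    exact inv_mul_cancel₀ hpos.ne'
  have hpl := plane hK.continuous hKc hr h1
  have hdd : ∀ v : ℂ, Continuous (fun y => fderiv ℝ (fun z => fderiv ℝ K z v) y v) ∧
      HasCompactSupport (fun y => fderiv ℝ (fun z => fderiv ℝ K z v) y v) := by
    intro v
    have hK1 : ContDiff ℝ 1 (fun z => fderiv ℝ K z v) :=
      ((hK.fderiv_right (m := 1) (by norm_cast)).clm_apply contDiff_const)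
    exact ⟨(hK1.continuous_fderiv one_ne_zero).clm_apply continuous_const,
      (hKc.fderiv_apply (𝕜 := ℝ) v).fderiv_apply (𝕜 := ℝ) v⟩
  refine ⟨K, hK, hKc, fun x => ?_, fun x => ?_⟩
  · rw [swap hK.continuous hKc, J0_eq]
    simp_rw [hpl]
  · have hl1 : Continuous (lap K) := (hdd 1).1.add (hdd Complex.I).1
    have hl2 : HasCompactSupport (lap K) := (hdd 1).2.add (hdd Complex.I).2
    rw [swap hl1 hl2, J0_eq]
    simp_rw [lap_int hK hKc, hpl]
    rw [intervalIntegral.integral_neg]
    ring

end

end Pool.Agent.Zk99.SQ
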